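import Pool.Agent.V1169.Conv

/-! # `MP_034ae1_an`, Q1: a closed totally disconnected null planar set that is not `c`-removable

`Pool.Agent.V1169.LocallyConvexOn U f` says that every point of `U` has an open convex
neighbourhood contained in `U` on which `f` is convex; `Pool.Agent.V1169.CRemovable A` says that
`A` is closed and every continuous function on the plane that is locally convex off `A` is convex.

The function is `f (x, y) = sup_s (h s y - |x - c s|)` where `s` runs over the Cantor space,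
`c s = ∑ s_i 8 ^ (-i)` and `h s y = ∑ s_i 2 * 8 ^ (-i) * cos (2 ^ i * y) + 2 * y ^ 2`.
-/

set_option autoImplicit false

open Set Filter Topology MeasureTheory Pool.Agent.V1169

namespace Pool.Agent.Results.MP_034ae1_an.NullTotallyDisconnected

section abstract_part

variable {K : Type} [TopologicalSpace K] [CompactSpace K] [Nonempty K]

/-- The envelope. -/
noncomputable def env (c : K → ℝ) (h : K → ℝ → ℝ) (z : ℝ × ℝ) : ℝ :=
  ⨆ s, (h s z.2 - |z.1 - c s|)

/-- The exceptional set. -/
def exc (c : K → ℝ) (h : K → ℝ → ℝ) : Set (ℝ × ℝ) :=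
  {z | ∃ s, c s = z.1 ∧ env c h z = h s z.2}

variable {c : K → ℝ} {h : K → ℝ → ℝ}

omit [CompactSpace K] [Nonempty K] in
theorem continuous_G (hc : Continuous c) (hh : Continuous fun p : K × ℝ => h p.1 p.2) :
    Continuous fun p : K × (ℝ × ℝ) => h p.1 p.2.2 - |p.2.1 - c p.1| := by
  have h1 : Continuous fun p : K × (ℝ × ℝ) => h p.1 p.2.2 :=
    hh.comp (by fun_prop : Continuous fun p : K × (ℝ × ℝ) => (p.1, p.2.2))
  have h2 : Continuous fun p : K × (ℝ × ℝ) => c p.1 := hc.comp continuous_fst
  exact h1.sub (((continuous_fst.comp continuous_snd).sub h2).abs)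

omit [CompactSpace K] [Nonempty K] in
theorem continuous_G' (hc : Continuous c) (hh : Continuous fun p : K × ℝ => h p.1 p.2)
    (z : ℝ × ℝ) : Continuous fun s : K => h s z.2 - |z.1 - c s| :=
  (continuous_G hc hh).comp (by fun_prop : Continuous fun s : K => (s, z))

omit [Nonempty K] in
theorem bdd (hc : Continuous c) (hh : Continuous fun p : K × ℝ => h p.1 p.2) (z : ℝ × ℝ) :
    BddAbove (range fun s : K => h s z.2 - |z.1 - c s|) := by
  rw [← image_univ]
  exact (isCompact_univ.image (continuous_G' hc hh z)).bddAbove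

theorem le_env (hc : Continuous c) (hh : Continuous fun p : K × ℝ => h p.1 p.2) (z : ℝ × ℝ)
    (s : K) : h s z.2 - |z.1 - c s| ≤ env c h z := le_ciSup (bdd hc hh z) s

theorem exists_env (hc : Continuous c) (hh : Continuous fun p : K × ℝ => h p.1 p.2) (z : ℝ × ℝ) :
    ∃ s, env c h z = h s z.2 - |z.1 - c s| := by
  obtain ⟨s, -, hs⟩ := isCompact_univ.exists_isMaxOn univ_nonempty
    (continuous_G' hc hh z).continuousOn
  refine ⟨s, le_antisymm (ciSup_le fun t => hs (mem_univ t)) (le_env hc hh z s)⟩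

omit [Nonempty K] in
theorem continuous_env (hc : Continuous c) (hh : Continuous fun p : K × ℝ => h p.1 p.2) :
    Continuous (env c h) := by
  have h1 := IsCompact.continuous_sSup (K := (univ : Set K)) isCompact_univ
    (f := fun (z : ℝ × ℝ) (s : K) => h s z.2 - |z.1 - c s|)
    ((continuous_G hc hh).comp (by fun_prop : Continuous fun p : (ℝ × ℝ) × K => (p.2, p.1)))
  have h2 : (fun z : ℝ × ℝ => sSup ((fun s : K => h s z.2 - |z.1 - c s|) '' univ)) = env c h := by
    funext z
    rw [image_univ]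
    rfl
  rw [← h2]
  exact h1

omit [Nonempty K] in
theorem isClosed_exc (hc : Continuous c) (hh : Continuous fun p : K × ℝ => h p.1 p.2) :
    IsClosed (exc c h) := by
  have h1 : IsClosed {p : (ℝ × ℝ) × K | c p.2 = p.1.1 ∧ env c h p.1 = h p.2 p.1.2} := by
    refine (isClosed_eq (hc.comp continuous_snd) (by fun_prop)).inter (isClosed_eq
      ((continuous_env hc hh).comp continuous_fst) ?_)
    exact hh.comp (by fun_prop : Continuous fun p : (ℝ × ℝ) × K => (p.2, p.1.2))
  have h2 : exc c h = Prod.fst '' {p : (ℝ × ℝ) × K | c p.2 = p.1.1 ∧ env c h p.1 = h p.2 p.1.2} := by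
    ext z
    constructor
    · rintro ⟨s, h3, h4⟩
      exact ⟨(z, s), ⟨h3, h4⟩, rfl⟩
    · rintro ⟨⟨w, s⟩, ⟨h3, h4⟩, rfl⟩
      exact ⟨s, h3, h4⟩
  rw [h2]
  exact isClosedMap_fst_of_compactSpace _ h1

theorem abs_affine {a z w p q δ x₀ : ℝ} (hz : |z - x₀| < δ) (hw : |w - x₀| < δ)
    (ha : δ ≤ |a - x₀|) (hp : 0 ≤ p) (hq : 0 ≤ q) (hpq : p + q = 1) :
    - |p * z + q * w - a| ≤ p * (- |z - a|) + q * (- |w - a|) := by
  have hz' := abs_lt.1 hz
  have hw' := abs_lt.1 hw
  have hq' : q = 1 - p := by linarith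
  rcases le_total 0 (a - x₀) with h0 | h0
  · rw [abs_of_nonneg h0] at ha
    have h1 : z - a ≤ 0 := by linarith
    have h2 : w - a ≤ 0 := by linarith
    have h3 : p * z + q * w - a = p * (z - a) + q * (w - a) := by rw [hq']; ring
    rw [h3, abs_of_nonpos h1, abs_of_nonpos h2, abs_of_nonpos (by nlinarith)]
    linarith
  · rw [abs_of_nonpos h0] at ha
    have h1 : 0 ≤ z - a := by linarith
    have h2 : 0 ≤ w - a := by linarith
    have h3 : p * z + q * w - a = p * (z - a) + q * (w - a) := by rw [hq']; ring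
    rw [h3, abs_of_nonneg h1, abs_of_nonneg h2, abs_of_nonneg (by positivity)]
    linarith

theorem locallyConvex_env (hc : Continuous c) (hh : Continuous fun p : K × ℝ => h p.1 p.2)
    (hconv : ∀ s, ConvexOn ℝ univ (h s)) : LocallyConvexOn (exc c h)ᶜ (env c h) := by
  intro z₀ hz₀
  set Q : Set ((ℝ × ℝ) × K) := {p | p.1 ∈ Metric.closedBall z₀ 1 ∧
    env c h p.1 = h p.2 p.1.2 - |p.1.1 - c p.2|} with hQ
  have hQc : IsCompact Q := by
    have h1 : IsCompact ((Metric.closedBall z₀ 1) ×ˢ (univ : Set K)) :=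
      (isCompact_closedBall _ _).prod isCompact_univ
    refine h1.of_isClosed_subset ?_ fun p hp => ⟨hp.1, mem_univ _⟩
    refine (Metric.isClosed_closedBall.preimage continuous_fst).inter (isClosed_eq
      ((continuous_env hc hh).comp continuous_fst) ?_)
    exact (continuous_G hc hh).comp (by fun_prop : Continuous fun p : (ℝ × ℝ) × K => (p.2, p.1))
  have hφ : Continuous fun p : (ℝ × ℝ) × K => |c p.2 - z₀.1| + dist p.1 z₀ := by
    have : Continuous fun p : (ℝ × ℝ) × K => c p.2 := hc.comp continuous_snd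
    fun_prop
  have hQne : Q.Nonempty := by
    obtain ⟨s, hs⟩ := exists_env hc hh z₀
    exact ⟨(z₀, s), Metric.mem_closedBall_self zero_le_one, hs⟩
  obtain ⟨⟨w, s⟩, hwQ, hmin⟩ := hQc.exists_isMinOn hQne hφ.continuousOn
  set m := |c s - z₀.1| + dist w z₀ with hm
  have hm0 : 0 < m := by
    rcases (add_nonneg (abs_nonneg (c s - z₀.1)) dist_nonneg : 0 ≤ m).lt_or_eq with h1 | h1
    · exact h1
    · exfalso
      have h2 : |c s - z₀.1| = 0 := by
        have := abs_nonneg (c s - z₀.1)
        have := dist_nonneg (x := w) (y := z₀)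
        linarith
      have h3 : dist w z₀ = 0 := by linarith
      rw [dist_eq_zero] at h3
      subst h3
      have h4 : c s = w.1 := by rwa [abs_eq_zero, sub_eq_zero] at h2
      refine hz₀ ⟨s, h4, ?_⟩
      have := hwQ.2
      rw [h4] at this
      simpa using this
  set δ := min (m / 2) 1 with hδ
  have hδ0 : 0 < δ := lt_min (by linarith) one_pos
  have hδm : δ ≤ m / 2 := min_le_left _ _
  have hδ1 : δ ≤ 1 := min_le_right _ _
  have hfar : ∀ z ∈ Metric.ball z₀ δ, ∀ s, env c h z = h s z.2 - |z.1 - c s| →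
      δ ≤ |c s - z₀.1| := by
    intro z hz s hs
    have h1 : (z, s) ∈ Q := ⟨Metric.ball_subset_closedBall (Metric.ball_subset_ball hδ1 hz), hs⟩
    have h2 : m ≤ |c s - z₀.1| + dist z z₀ := hmin h1
    have h3 : dist z z₀ < δ := hz
    linarith
  have hcoord : ∀ z ∈ Metric.ball z₀ δ, |z.1 - z₀.1| < δ := by
    intro z hz
    rw [← Real.dist_eq]
    exact (le_max_left _ _).trans_lt (by simpa [Prod.dist_eq] using hz)
  refine ⟨Metric.ball z₀ δ, Metric.isOpen_ball, convex_ball _ _, Metric.mem_ball_self hδ0, ?_, 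
    convex_ball _ _, ?_⟩
  · rintro z hz ⟨s, h1, h2⟩
    have h3 := hfar z hz s (by rw [h2, h1]; simp)
    rw [h1] at h3
    exact absurd (hcoord z hz) (not_lt.2 h3)
  · intro z hz w hw p q hp hq hpq
    obtain ⟨s, hs⟩ := exists_env hc hh (p • z + q • w)
    have h1 := hfar _ ((convex_ball z₀ δ) hz hw hp hq hpq) s hs
    rw [hs]
    have h2 := (hconv s).2 (mem_univ z.2) (mem_univ w.2) hp hq hpq
    have h3 := abs_affine (hcoord z hz) (hcoord w hw) h1 hp hq hpq
    have h4 := le_env hc hh z s
    have h5 := le_env hc hh w s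
    simp only [Prod.fst_add, Prod.snd_add, Prod.smul_fst, Prod.smul_snd, smul_eq_mul] at h2 ⊢
    nlinarith

end abstract_part

/-! ### The example -/

/-- `0` or `1`. -/
def val (b : Bool) : ℝ := if b then 1 else 0

theorem val_nonneg (b : Bool) : 0 ≤ val b := by cases b <;> simp [val]
theorem val_le_one (b : Bool) : val b ≤ 1 := by cases b <;> simp [val]

theorem continuous_val (i : ℕ) : Continuous fun s : ℕ → Bool => val (s i) :=
  (continuous_of_discreteTopology (f := val)).comp (continuous_apply i)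

/-- The code map. -/
noncomputable def code (s : ℕ → Bool) : ℝ := ∑' i, val (s i) * (1 / 8) ^ i

/-- The heights. -/
noncomputable def ht (s : ℕ → Bool) (y : ℝ) : ℝ :=
  (∑' i, val (s i) * (2 * (1 / 8) ^ i * Real.cos (2 ^ i * y))) + 2 * y ^ 2

theorem summable_geo : Summable fun i : ℕ => (1 / 8 : ℝ) ^ i :=
  summable_geometric_of_lt_one (by norm_num) (by norm_num)

theorem summable_code (s : ℕ → Bool) : Summable fun i => val (s i) * (1 / 8 : ℝ) ^ i := by
  refine Summable.of_nonneg_of_le (fun i => mul_nonneg (val_nonneg _) (by positivity)) (fun i => ?_)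
    summable_geo
  exact mul_le_of_le_one_left (by positivity) (val_le_one _)

theorem norm_ht_term (s : ℕ → Bool) (y : ℝ) (i : ℕ) :
    ‖val (s i) * (2 * (1 / 8) ^ i * Real.cos (2 ^ i * y))‖ ≤ 2 * (1 / 8) ^ i := by
  rw [norm_mul, norm_mul, Real.norm_of_nonneg (val_nonneg _),
    Real.norm_of_nonneg (by positivity : (0:ℝ) ≤ 2 * (1 / 8) ^ i)]
  have h1 : ‖Real.cos (2 ^ i * y)‖ ≤ 1 := Real.abs_cos_le_one _
  have h2 := val_le_one (s i)
  have h3 := val_nonneg (s i)
  have h4 : (0:ℝ) ≤ 2 * (1 / 8) ^ i := by positivity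
  have h5 : 2 * (1 / 8) ^ i * ‖Real.cos (2 ^ i * y)‖ ≤ 2 * (1 / 8) ^ i :=
    mul_le_of_le_one_right h4 h1
  calc val (s i) * (2 * (1 / 8) ^ i * ‖Real.cos (2 ^ i * y)‖)
      ≤ 1 * (2 * (1 / 8) ^ i * ‖Real.cos (2 ^ i * y)‖) :=
        mul_le_mul_of_nonneg_right h2 (mul_nonneg h4 (norm_nonneg _))
    _ ≤ 2 * (1 / 8) ^ i := by rw [one_mul]; exact h5

theorem summable_ht (s : ℕ → Bool) (y : ℝ) :
    Summable fun i => val (s i) * (2 * (1 / 8 : ℝ) ^ i * Real.cos (2 ^ i * y)) :=
  Summable.of_norm_bounded (summable_geo.mul_left 2) (norm_ht_term s y)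

theorem continuous_code : Continuous code := by
  refine continuous_tsum (fun i => (continuous_val i).mul continuous_const) summable_geo
    fun i s => ?_
  rw [norm_mul, Real.norm_of_nonneg (val_nonneg _), Real.norm_of_nonneg (by positivity)]
  exact mul_le_of_le_one_left (by positivity) (val_le_one _)

theorem continuous_ht : Continuous fun p : (ℕ → Bool) × ℝ => ht p.1 p.2 := by
  refine Continuous.add (continuous_tsum (fun i => ?_) (summable_geo.mul_left 2)
    fun i p => norm_ht_term p.1 p.2 i) (by fun_prop)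
  exact ((continuous_val i).comp continuous_fst).mul (by fun_prop)

theorem convex_cos : ConvexOn ℝ univ fun y : ℝ => Real.cos y + y ^ 2 / 2 := by
  have hd : ∀ y : ℝ, HasDerivAt (fun y : ℝ => Real.cos y + y ^ 2 / 2) (-Real.sin y + y) y := by
    intro y
    have h1 := (Real.hasDerivAt_cos y).add (((hasDerivAt_id y).pow 2).div_const 2)
    refine h1.congr_deriv ?_
    simp
  have hd' : deriv (fun y : ℝ => Real.cos y + y ^ 2 / 2) = fun y => -Real.sin y + y := by
    funext y
    exact (hd y).deriv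
  refine MonotoneOn.convexOn_of_deriv convex_univ (by fun_prop)
    (fun y _ => (hd y).differentiableAt.differentiableWithinAt) ?_
  rw [hd']
  have hmono : Monotone fun y : ℝ => -Real.sin y + y := by
    refine monotone_of_deriv_nonneg (by fun_prop) fun y => ?_
    have : HasDerivAt (fun y : ℝ => -Real.sin y + y) (-Real.cos y + 1) y :=
      (Real.hasDerivAt_sin y).neg.add (hasDerivAt_id y)
    rw [this.deriv]
    linarith [Real.cos_le_one y]
  exact hmono.monotoneOn _

theorem convex_term (b : Bool) (i : ℕ) :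
    ConvexOn ℝ univ fun y : ℝ => val b * (2 * (1 / 8) ^ i * Real.cos (2 ^ i * y))
      + (1 / 2) ^ i * y ^ 2 := by
  have hsq : ConvexOn ℝ univ fun y : ℝ => (1 / 2 : ℝ) ^ i * y ^ 2 := by
    have := (Even.convexOn_pow (n := 2) (𝕜 := ℝ) even_two).smul (c := (1 / 2 : ℝ) ^ i) (by positivity)
    simpa [smul_eq_mul] using this
  cases b
  · simpa [val] using hsq
  · have h1 := (convex_cos.comp_linearMap ((2 : ℝ) ^ i • (LinearMap.id : ℝ →ₗ[ℝ] ℝ))).smul
      (c := 2 * (1 / 8 : ℝ) ^ i) (by positivity)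
    refine (h1.subset (subset_univ _) convex_univ |>.congr fun y _ => ?_)
    simp only [Function.comp, LinearMap.smul_apply, LinearMap.id_coe, id, smul_eq_mul, val,
      if_true, one_mul]
    have h2 : (1 / 8 : ℝ) ^ i * (2 ^ i) ^ 2 = (1 / 2) ^ i := by
      rw [← pow_mul, mul_comm i 2, pow_mul, ← mul_pow]
      norm_num
    have h3 : 2 * (1 / 8 : ℝ) ^ i * (Real.cos (2 ^ i * y) + (2 ^ i * y) ^ 2 / 2)
        = 2 * (1 / 8 : ℝ) ^ i * Real.cos (2 ^ i * y) + ((1 / 8 : ℝ) ^ i * (2 ^ i) ^ 2) * y ^ 2 := by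
      ring
    rw [h3, h2]

theorem convex_ht (s : ℕ → Bool) : ConvexOn ℝ univ (ht s) := by
  have hsum : ∀ y : ℝ, HasSum (fun i => val (s i) * (2 * (1 / 8 : ℝ) ^ i * Real.cos (2 ^ i * y))
      + (1 / 2) ^ i * y ^ 2) (ht s y) := by
    intro y
    have h1 := (summable_ht s y).hasSum
    have h2 : HasSum (fun i : ℕ => (1 / 2 : ℝ) ^ i * y ^ 2) (2 * y ^ 2) :=
      hasSum_geometric_two.mul_right _
    exact h1.add h2
  refine convexOn_of_tendsto (l := atTop) (F := fun (n : ℕ) (y : ℝ) => ∑ i ∈ Finset.range n,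
    (val (s i) * (2 * (1 / 8 : ℝ) ^ i * Real.cos (2 ^ i * y)) + (1 / 2) ^ i * y ^ 2)) convex_univ
    (Eventually.of_forall fun n => ?_) fun y _ => (hsum y).tendsto_sum_nat
  induction n with
  | zero => simpa using convexOn_const (0 : ℝ) (convex_univ (𝕜 := ℝ) (E := ℝ))
  | succ n ih =>
    simp only [Finset.sum_range_succ]
    exact ih.add (convex_term (s n) n)

/-- Flipping one digit. -/
theorem code_update (s : ℕ → Bool) (i : ℕ) (b : Bool) :
    code (Function.update s i b) - code s = (val b - val (s i)) * (1 / 8) ^ i := by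
  unfold code
  rw [← (summable_code _).tsum_sub (summable_code _), tsum_eq_single i]
  · simp [sub_mul]
  · intro j hj
    simp [Function.update_of_ne hj]

theorem ht_update (s : ℕ → Bool) (i : ℕ) (b : Bool) (y : ℝ) :
    ht (Function.update s i b) y - ht s y
      = (val b - val (s i)) * (2 * (1 / 8) ^ i * Real.cos (2 ^ i * y)) := by
  unfold ht
  rw [add_sub_add_right_eq_sub, ← (summable_ht _ _).tsum_sub (summable_ht _ _), tsum_eq_single i]
  · simp [sub_mul]
  · intro j hj
    simp [Function.update_of_ne hj]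

theorem code_succ (s : ℕ → Bool) : code s = val (s 0) + (1 / 8) * code (fun i => s (i + 1)) := by
  unfold code
  rw [(summable_code s).tsum_eq_zero_add, ← tsum_mul_left]
  simp only [pow_zero, mul_one, pow_succ]
  congr 1
  refine tsum_congr fun i => ?_
  ring

theorem code_nonneg (s : ℕ → Bool) : 0 ≤ code s :=
  tsum_nonneg fun i => mul_nonneg (val_nonneg _) (by positivity)

theorem code_le (s : ℕ → Bool) : code s ≤ 8 / 7 := by
  have h1 : code s ≤ ∑' i : ℕ, (1 / 8 : ℝ) ^ i :=
    (summable_code s).tsum_le_tsum (fun i => mul_le_of_le_one_left (by positivity) (val_le_one _))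
      summable_geo
  rw [tsum_geometric_of_lt_one (by norm_num) (by norm_num)] at h1
  norm_num at h1
  linarith

theorem code_injective : Function.Injective code := by
  have key : ∀ (i : ℕ) (s t : ℕ → Bool), code s = code t → s i = t i := by
    intro i
    induction i with
    | zero =>
      intro s t hst
      rw [code_succ s, code_succ t] at hst
      have h1 := code_nonneg (fun i => s (i + 1))
      have h2 := code_nonneg (fun i => t (i + 1))
      have h3 := code_le (fun i => s (i + 1))
      have h4 := code_le (fun i => t (i + 1))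
      cases hs : s 0 <;> cases ht : t 0 <;> simp only [hs, ht, val] at hst ⊢ <;>
        norm_num at hst ⊢ <;> linarith
    | succ i ih =>
      intro s t hst
      have h0 : s 0 = t 0 := by
        rw [code_succ s, code_succ t] at hst
        have h1 := code_nonneg (fun i => s (i + 1))
        have h2 := code_nonneg (fun i => t (i + 1))
        have h3 := code_le (fun i => s (i + 1))
        have h4 := code_le (fun i => t (i + 1))
        cases hs : s 0 <;> cases ht : t 0 <;> simp only [hs, ht, val] at hst ⊢ <;>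
          norm_num at hst ⊢ <;> linarith
      refine ih (fun i => s (i + 1)) (fun i => t (i + 1)) ?_
      rw [code_succ s, code_succ t, h0] at hst
      linarith
  intro s t hst
  funext i
  exact key i s t hst

theorem volume_range_code : volume (range code) = 0 := by
  have hfin : volume (range code) ≠ ⊤ := by
    rw [← image_univ]
    exact (isCompact_univ.image continuous_code).measure_lt_top.ne
  have hthird : ∀ c : ℝ, volume ((fun x : ℝ => c + (1 / 8 : ℝ) * x) '' range code)
      ≤ ENNReal.ofReal (1 / 8) * volume (range code) := by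
    intro c
    have h1 : (fun x : ℝ => c + (1 / 8 : ℝ) * x) '' range code
        = (fun x => c + x) '' ((fun y : ℝ => (1 / 8 : ℝ) • y) '' range code) := by
      rw [image_image]
      rfl
    rw [h1, image_add_left, measure_preimage_add, image_smul, Measure.addHaar_smul]
    simp
  have hsub : range code ⊆ ((fun x : ℝ => 0 + (1 / 8 : ℝ) * x) '' range code) ∪
      ((fun x : ℝ => 1 + (1 / 8 : ℝ) * x) '' range code) := by
    rintro x ⟨s, rfl⟩
    rw [code_succ s]
    cases hs : s 0
    · left
      exact ⟨_, ⟨fun i => s (i + 1), rfl⟩, by simp [val]⟩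
    · right
      exact ⟨_, ⟨fun i => s (i + 1), rfl⟩, by simp [val]⟩
  have h3 : volume (range code) ≤ ENNReal.ofReal (1 / 8) * volume (range code)
      + ENNReal.ofReal (1 / 8) * volume (range code) :=
    (measure_mono hsub).trans ((measure_union_le _ _).trans (add_le_add (hthird 0) (hthird 1)))
  obtain ⟨r, hr⟩ : ∃ r : NNReal, (r : ENNReal) = volume (range code) :=
    ⟨_, ENNReal.coe_toNNReal hfin⟩
  rw [← hr] at h3 ⊢
  have h4 : ENNReal.ofReal (1 / 8) = ((1 / 8 : NNReal) : ENNReal) := by
    rw [ENNReal.ofReal]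
    congr 1
    rw [← NNReal.coe_inj, Real.coe_toNNReal _ (by norm_num)]
    norm_num
  rw [h4] at h3
  have h5 : r ≤ 1 / 8 * r + 1 / 8 * r := by exact_mod_cast h3
  have h6 : (r : ℝ) ≤ 1 / 8 * r + 1 / 8 * r := by exact_mod_cast h5
  have h7 : (r : ℝ) = 0 := le_antisymm (by linarith) r.2
  have h8 : r = 0 := by exact_mod_cast h7
  rw [h8]
  rfl

/-- Large frequencies: cosine takes the values `1` and `-1`. -/
theorem exists_cos {a b : ℝ} (hab : a < b) : ∃ i : ℕ, (∃ y ∈ Icc a b, Real.cos (2 ^ i * y) = 1) ∧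
    ∃ y ∈ Icc a b, Real.cos (2 ^ i * y) = -1 := by
  obtain ⟨i, hi⟩ := pow_unbounded_of_one_lt (4 * Real.pi / (b - a)) (one_lt_two)
  have hπ := Real.pi_pos
  have h2 : (0:ℝ) < 2 ^ i := by positivity
  have hi' : 4 * Real.pi < 2 ^ i * (b - a) := by
    rwa [div_lt_iff₀ (by linarith)] at hi
  set k : ℤ := ⌈2 ^ i * a / (2 * Real.pi)⌉ with hk
  have hk1 : 2 ^ i * a / (2 * Real.pi) ≤ k := Int.le_ceil _
  have hk2 : (k : ℝ) < 2 ^ i * a / (2 * Real.pi) + 1 := Int.ceil_lt_add_one _
  rw [div_le_iff₀ (by positivity)] at hk1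
  have hk3 : (k : ℝ) * (2 * Real.pi) < 2 ^ i * a + 2 * Real.pi := by
    have := mul_lt_mul_of_pos_right hk2 (by positivity : 0 < 2 * Real.pi)
    rwa [add_mul, div_mul_cancel₀ _ (by positivity), one_mul] at this
  refine ⟨i, ⟨(k : ℝ) * (2 * Real.pi) / 2 ^ i, ⟨?_, ?_⟩, ?_⟩,
    ⟨((k : ℝ) * (2 * Real.pi) + Real.pi) / 2 ^ i, ⟨?_, ?_⟩, ?_⟩⟩
  · rw [le_div_iff₀ h2]; linarith
  · rw [div_le_iff₀ h2]; nlinarith
  · rw [mul_div_cancel₀ _ h2.ne']
    exact Real.cos_int_mul_two_pi k
  · rw [le_div_iff₀ h2]; linarith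
  · rw [div_le_iff₀ h2]; nlinarith
  · rw [mul_div_cancel₀ _ h2.ne', Real.cos_add_pi, Real.cos_int_mul_two_pi]

theorem fiber {s : ℕ → Bool} {a b : ℝ} (hab : a < b)
    (h : ∀ y ∈ Icc a b, (code s, y) ∈ exc code ht) : False := by
  obtain ⟨i, ⟨y₁, hy₁, hc₁⟩, ⟨y₂, hy₂, hc₂⟩⟩ := exists_cos hab
  have key : ∀ y ∈ Icc a b, ∀ d : Bool,
      (val d - val (s i)) * (2 * (1 / 8) ^ i * Real.cos (2 ^ i * y))
        ≤ |val d - val (s i)| * (1 / 8) ^ i := by
    intro y hy d
    obtain ⟨t, ht1, ht2⟩ := h y hy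
    have hts : t = s := code_injective ht1
    subst hts
    have h1 := le_env continuous_code continuous_ht (code t, y) (Function.update t i d)
    rw [ht2] at h1
    simp only at h1
    have h2 := code_update t i d
    have h3 := ht_update t i d y
    have h4 : |code t - code (Function.update t i d)| = |val d - val (t i)| * (1 / 8) ^ i := by
      rw [abs_sub_comm, h2, abs_mul, abs_of_pos (by positivity : (0:ℝ) < (1 / 8) ^ i)]
    rw [h4] at h1
    linarith
  have h8 : (0:ℝ) < (1 / 8) ^ i := by positivity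
  cases hs : s i
  · have h1 := key y₁ hy₁ true
    rw [hc₁, hs] at h1
    simp only [val, if_true] at h1
    norm_num at h1
  · have h1 := key y₂ hy₂ false
    rw [hc₂, hs] at h1
    simp only [val, if_true] at h1
    norm_num at h1

theorem isTotallyDisconnected_exc : IsTotallyDisconnected (exc code ht) := by
  intro t ht' hpre
  have hfst : ∀ p ∈ t, ∀ q ∈ t, p.1 = q.1 := by
    have hpre1 : (Prod.fst '' t).OrdConnected := (hpre.image _ continuous_fst.continuousOn).ordConnected
    have hsub : Prod.fst '' t ⊆ range code := by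
      rintro x ⟨p, hp, rfl⟩
      obtain ⟨s, hs, -⟩ := ht' hp
      exact ⟨s, hs⟩
    have hnot : ∀ p ∈ t, ∀ q ∈ t, ¬ p.1 < q.1 := by
      intro p hp q hq hlt
      have h1 : Icc p.1 q.1 ⊆ range code := (hpre1.out ⟨p, hp, rfl⟩ ⟨q, hq, rfl⟩).trans hsub
      have h2 := measure_mono_null h1 volume_range_code
      rw [Real.volume_Icc, ENNReal.ofReal_eq_zero] at h2
      linarith
    intro p hp q hq
    exact le_antisymm (not_lt.1 (hnot q hq p hp)) (not_lt.1 (hnot p hp q hq))
  have hsnd : ∀ p ∈ t, ∀ q ∈ t, p.2 = q.2 := by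
    have hpre1 : (Prod.snd '' t).OrdConnected := (hpre.image _ continuous_snd.continuousOn).ordConnected
    have hnot : ∀ p ∈ t, ∀ q ∈ t, ¬ p.2 < q.2 := by
      intro p hp q hq hlt
      obtain ⟨s, hs, -⟩ := ht' hp
      refine fiber (s := s) hlt fun y hy => ?_
      obtain ⟨r, hr, hry⟩ := hpre1.out ⟨p, hp, rfl⟩ ⟨q, hq, rfl⟩ hy
      have h1 : r = (code s, y) := by
        ext
        · rw [hfst r hr p hp, hs]
        · exact hry
      rw [← h1]
      exact ht' hr
    intro p hp q hq
    exact le_antisymm (not_lt.1 (hnot q hq p hp)) (not_lt.1 (hnot p hp q hq))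
  intro p hp q hq
  exact Prod.ext (hfst p hp q hq) (hsnd p hp q hq)

theorem volume_exc : volume (exc code ht) = 0 := by
  have h1 : exc code ht ⊆ range code ×ˢ (univ : Set ℝ) := by
    rintro z ⟨s, hs, -⟩
    exact ⟨⟨s, hs⟩, mem_univ _⟩
  refine measure_mono_null h1 ?_
  rw [Measure.volume_eq_prod, Measure.prod_prod, volume_range_code, zero_mul]

theorem ht_zero (s : ℕ → Bool) : ht s 0 = 2 * code s := by
  unfold ht code
  rw [← tsum_mul_left]
  simp only [mul_zero, Real.cos_zero, mul_one, ne_eq, OfNat.ofNat_ne_zero, not_false_eq_true,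
    zero_pow, add_zero]
  refine tsum_congr fun i => ?_
  ring

theorem code_le_one (s : ℕ → Bool) : code s ≤ code fun _ => true :=
  (summable_code s).tsum_le_tsum (fun i => by
    have := val_le_one (s i)
    have h8 : (0:ℝ) ≤ (1 / 8) ^ i := by positivity
    simp only [val, if_true] at this ⊢
    exact mul_le_mul_of_nonneg_right this h8) (summable_code _)

theorem not_convex : ¬ ConvexOn ℝ univ (env code ht) := by
  intro hconv
  set X := code fun _ => true with hX
  have h1 : 2 * X ≤ env code ht (X, 0) := by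
    have := le_env continuous_code continuous_ht (X, 0) (fun _ => true)
    rw [ht_zero, ← hX] at this
    simpa using this
  have h2 : env code ht (X - 1, 0) ≤ 2 * X - 1 := by
    refine ciSup_le fun s => ?_
    rw [ht_zero]
    have h3 := code_le_one s
    have h4 := neg_abs_le (X - 1 - code s)
    simp only
    linarith
  have h3 : env code ht (X + 1, 0) ≤ 2 * X - 1 := by
    refine ciSup_le fun s => ?_
    rw [ht_zero]
    have h3 := code_le_one s
    have h4 := le_abs_self (X + 1 - code s)
    simp only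
    linarith
  have h4 := hconv.2 (mem_univ (X - 1, (0:ℝ))) (mem_univ (X + 1, (0:ℝ)))
    (by norm_num : (0:ℝ) ≤ 1/2) (by norm_num : (0:ℝ) ≤ 1/2) (by norm_num)
  have h5 : (1/2 : ℝ) • (X - 1, (0:ℝ)) + (1/2 : ℝ) • (X + 1, (0:ℝ)) = (X, 0) := by
    ext
    · simp; ring
    · simp
  rw [h5] at h4
  simp only [smul_eq_mul] at h4
  linarith

/-- There is a closed, totally disconnected planar set of measure zero that is not `c`-removable. -/
theorem result : ∃ E : Set (ℝ × ℝ), IsClosed E ∧ IsTotallyDisconnected E ∧ volume E = 0 ∧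
    ¬ CRemovable E :=
  ⟨exc code ht, isClosed_exc continuous_code continuous_ht, isTotallyDisconnected_exc, volume_exc,
    fun h => not_convex (h.2 _ (continuous_env continuous_code continuous_ht)
      (locallyConvex_env continuous_code continuous_ht convex_ht))⟩

end Pool.Agent.Results.MP_034ae1_an.NullTotallyDisconnected
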